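import Mathlib
import Pool.Agent.Lib.MP_d90615_co.Mg.G003

/-!
A pair of vertices with proportional stars as one of the two edges: reduction to the graph in
which the two vertices are merged.
-/

set_option autoImplicit false
set_option linter.unusedSectionVars false

namespace Pool.Agent.Lib.MP_d90615_co

open Matrix Finset
open scoped Classical

open Pool.Agent.TW
open Pool.Agent.PW (Z N N2 Ray)

variable {V : Type*} [Fintype V]

/-- The pairs which avoid `c` and `d`. -/
noncomputable def Sk (c d : V) : Finset (PE V) :=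
  univ.filter fun g => g ∉ St (pe V) c ∧ g ∉ St (pe V) d

/-- `h_0`. -/
noncomputable def k0 (W : Sym2 V → ℝ) (c d : V) (x : V → ℝ) : ℝ :=
  h0 (pe V) (fun g => W g.1) (Sk c d) x

/-- `h_x`. -/
noncomputable def kx (W : Sym2 V → ℝ) (c d : V) (x : V → ℝ) : ℝ :=
  hx (pe V) (fun g => W g.1) (Sk c d) x

/-- `h_b`. -/
noncomputable def kb (W : Sym2 V → ℝ) (c d : V) (x : V → ℝ) (b : V) : ℝ :=
  hb (pe V) (fun g => W g.1) (Sk c d) x b

lemma mem_Sk {c d : V} {g : PE V} : g ∈ Sk c d ↔ c ∉ g.1 ∧ d ∉ g.1 := by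
  unfold Sk
  rw [mem_filter, mem_St, mem_St]
  simp only [mem_univ, true_and]
  rfl

lemma k0_congr {W W' : Sym2 V → ℝ} {c d : V} (x : V → ℝ)
    (h : ∀ g, c ∉ g → d ∉ g → W g = W' g) : k0 W c d x = k0 W' c d x :=
  hs_congr _ _ x (fun g hg => h g.1 (mem_Sk.mp hg).1 (mem_Sk.mp hg).2) _

lemma kb_congr {W W' : Sym2 V → ℝ} {c d : V} (x : V → ℝ)
    (h : ∀ g, c ∉ g → d ∉ g → W g = W' g) (b : V) : kb W c d x b = kb W' c d x b := by
  unfold kb hb
  exact hs_congr (pe V) (w := fun g => W g.1) (w' := fun g => W' g.1) (Sk c d) x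
    (fun g hg => h g.1 (mem_Sk.mp hg).1 (mem_Sk.mp hg).2) _

lemma kx_eq (W : Sym2 V → ℝ) (c d : V) (x : V → ℝ) :
    kx W c d x = (∑ v, x v) * k0 W c d x - ∑ v, x v * kb W c d x v := by
  unfold kx k0 kb hx h0 hb hs
  simp only [Finset.mul_sum]
  rw [Finset.sum_comm, ← Finset.sum_sub_distrib]
  refine Finset.sum_congr rfl fun F _ => ?_
  rw [Ax_eq, cm_total]
  have h1 : Sg univ (cm (pe V) F x) (fun T => 1 + cm (pe V) F x T) =
      ∑ v, x v * Pool.Agent.TW.Ab (cm (pe V) F x) (cmp (pe V) F v) := by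
    unfold Sg
    rw [← Finset.sum_fiberwise univ (cmp (pe V) F)
      (fun v => x v * Pool.Agent.TW.Ab (cm (pe V) F x) (cmp (pe V) F v))]
    refine Finset.sum_congr rfl fun q _ => ?_
    conv_lhs => rw [cm, Finset.sum_mul]
    refine Finset.sum_congr rfl fun v hv => ?_
    rw [mem_filter] at hv
    rw [hv.2]
    rfl
  rw [h1, mul_sub, Finset.mul_sum]
  congr 1
  · ring
  · refine Finset.sum_congr rfl fun v _ => ?_
    ring

section

variable (W : Sym2 V → ℝ) {c d : V} (hcd : c ≠ d) (x : V → ℝ) (hxc : x c = 0) (hxd : x d = 0)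

include hcd hxc hxd

/-- The partition function for two vertices with proportional stars. -/
lemma Z_pair {p q : ℝ} (hpq : p + q = 1) (hc : ∀ v, v ≠ c → v ≠ d → W s(c, v) = p * x v)
    (hd : ∀ v, v ≠ c → v ≠ d → W s(d, v) = q * x v) :
    Z W = (1 + W s(c, d)) * k0 W c d x + p * q * kx W c d x := by
  have h := Z_coef (pe V) pe_loop (fun g : PE V => W g.1) hcd c d x hpq 0 0 (by
    intro i
    rw [mr_pe]
    by_cases hid : i = d
    · subst hid
      rw [if_pos rfl, hxd]
      simp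
    rw [if_neg hid]
    by_cases hic : i = c
    · subst hic
      rw [if_pos rfl, hxc]
      simp
    rw [if_neg hic, hc i hic hid]
    simp) (by
    intro i
    rw [mr_pe]
    by_cases hic : i = c
    · subst hic
      rw [if_pos rfl, hxc]
      simp
    rw [if_neg hic]
    by_cases hid : i = d
    · subst hid
      rw [if_pos rfl, hxd]
      simp
    rw [if_neg hid, hd i hic hid]
    simp) (Sk c d) (fun g => by
      unfold Sk
      rw [mem_filter]
      simp) (W s(c, d)) (by
      rw [mr_pe, if_neg hcd, Sym2.eq_swap])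
  rw [← Z_pe, h]
  unfold k0 kx
  ring

lemma N_pair {p q : ℝ} (hpq : p + q = 1) (hc : ∀ v, v ≠ c → v ≠ d → W s(c, v) = p * x v)
    (hd : ∀ v, v ≠ c → v ≠ d → W s(d, v) = q * x v) :
    N W s(c, d) = k0 W c d x := by
  have h1 := Pool.Agent.PW.Z_split W s(c, d) (W s(c, d) + 1)
  set W' := Function.update W s(c, d) (W s(c, d) + 1) with hW'
  have hne : ∀ u v, v ≠ c → v ≠ d → s(u, v) ≠ s(c, d) := by
    intro u v h1 h2 h3
    rw [Sym2.eq_iff] at h3
    rcases h3 with h3 | h3
    · exact h2 h3.2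
    · exact h1 h3.2
  have h2 := Z_pair W' hcd x hxc hxd hpq
    (fun v hv hv' => by rw [hW', Function.update_of_ne (hne c v hv hv'), hc v hv hv'])
    (fun v hv hv' => by rw [hW', Function.update_of_ne (hne d v hv hv'), hd v hv hv'])
  have h3 := Z_pair W hcd x hxc hxd hpq hc hd
  have h4 : ∀ g, c ∉ g → d ∉ g → W' g = W g := by
    intro g hg _
    rw [hW', Function.update_of_ne]
    rintro rfl
    exact hg (Sym2.mem_mk_left c d)
  have h5 : k0 W' c d x = k0 W c d x := k0_congr x h4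
  have h6 : kx W' c d x = kx W c d x := by
    rw [kx_eq, kx_eq, h5]
    congr 1
    exact Finset.sum_congr rfl fun v _ => by rw [kb_congr x h4 v]
  have h7 : W' s(c, d) = W s(c, d) + 1 := by rw [hW', Function.update_self]
  rw [h5, h6, h7] at h2
  linarith

/-- The merged graph. -/
lemma Z_merged (hc : ∀ v, v ≠ c → v ≠ d → W s(c, v) = x v)
    (hd : ∀ v, v ≠ c → v ≠ d → W s(d, v) = 0) (h0' : W s(c, d) = 0) :
    Z W = k0 W c d x := by
  rw [Z_pair W hcd x hxc hxd (p := 1) (q := 0) (by ring)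
    (fun v h1 h2 => by rw [hc v h1 h2, one_mul]) (fun v h1 h2 => by rw [hd v h1 h2, zero_mul]),
    h0']
  ring

lemma N_merged (hc : ∀ v, v ≠ c → v ≠ d → W s(c, v) = x v)
    (hd : ∀ v, v ≠ c → v ≠ d → W s(d, v) = 0) (h0' : W s(c, d) = 0) {b : V} (hbc : b ≠ c)
    (hbd : b ≠ d) : N W s(c, b) = kb W c d x b := by
  have h1 := Pool.Agent.PW.Z_split W s(c, b) (x b + 1)
  rw [Z_merged W hcd x hxc hxd hc hd h0', hc b hbc hbd] at h1
  set W' := Function.update W s(c, b) (x b + 1) with hW'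
  have v1 : ∀ g, g ≠ s(c, b) → W' g = W g := fun g hg => by
    rw [hW', Function.update_of_ne hg]
  have v2 : W' s(c, b) = x b + 1 := by rw [hW', Function.update_self]
  have hne1 : ∀ v, v ≠ b → s(c, v) ≠ s(c, b) := by
    intro v h1 h3
    rw [Sym2.eq_iff] at h3
    rcases h3 with h3 | h3
    · exact h1 h3.2
    · exact hbc h3.1.symm
  have hne2 : ∀ v, s(d, v) ≠ s(c, b) := by
    intro v h3
    rw [Sym2.eq_iff] at h3
    rcases h3 with h3 | h3
    · exact hcd h3.1.symm
    · exact hbd h3.1.symm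
  have h := Z_coef (pe V) pe_loop (fun g : PE V => W' g.1) hcd b d x
    (show (1 : ℝ) + 0 = 1 by ring) 1 0 (by
    intro i
    rw [mr_pe]
    by_cases hid : i = d
    · subst hid
      rw [if_pos rfl, hxd, if_neg hbd.symm]
      ring
    rw [if_neg hid]
    by_cases hic : i = c
    · subst hic
      rw [if_pos rfl, hxc, if_neg hbc.symm]
      ring
    rw [if_neg hic]
    by_cases hib : i = b
    · subst hib
      rw [if_pos rfl, v2]
      ring
    · rw [if_neg hib, v1 _ (hne1 i hib), hc i hic hid]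
      ring) (by
    intro i
    rw [mr_pe]
    by_cases hic : i = c
    · subst hic
      rw [if_pos rfl]
      simp
    rw [if_neg hic]
    by_cases hid : i = d
    · subst hid
      rw [if_pos rfl]
      simp
    rw [if_neg hid, v1 _ (hne2 i), hd i hic hid]
    simp) (Sk c d) (fun g => by
      unfold Sk
      rw [mem_filter]
      simp) 0 (by
      rw [mr_pe, if_neg hcd, v1 _ (hne2 c), Sym2.eq_swap, h0'])
  have h2 := (Z_pe W').symm.trans h
  have h4 : ∀ g, c ∉ g → d ∉ g → W' g = W g := by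
    intro g hg _
    rw [v1]
    rintro rfl
    exact hg (Sym2.mem_mk_left c b)
  have h5 : k0 W' c d x = k0 W c d x := k0_congr x h4
  have h6 : kb W' c d x b = kb W c d x b := kb_congr x h4 b
  rw [h2] at h1
  have h7 : h0 (pe V) (fun g : PE V => W' g.1) (Sk c d) x = k0 W' c d x := rfl
  have h8 : hb (pe V) (fun g : PE V => W' g.1) (Sk c d) x b = kb W' c d x b := rfl
  rw [h7, h8, h5, h6] at h1
  linarith

end

/-- `Ray` by an increment of the weight of `e`. -/
lemma ray_inc (W : Sym2 V → ℝ) {e f : Sym2 V} (hef : e ≠ f) :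
    Ray W e f = Z (Function.update W e (W e + 1)) * N W f -
      Z W * N (Function.update W e (W e + 1)) f := by
  have h1 := Pool.Agent.PW.Z_split W e (W e + 1)
  have h2 := Pool.Agent.PW.N_split W hef (W e + 1) (e := f)
  rw [Pool.Agent.PW.N2_comm] at h2
  unfold Ray
  have h3 : N W e = Z (Function.update W e (W e + 1)) - Z W := by linarith
  have h4 : N2 W e f = N (Function.update W e (W e + 1)) f - N W f := by linarith
  rw [h3, h4]
  ring

/-- A pair of vertices with proportional stars. -/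
theorem ray_pair_left (W : Sym2 V → ℝ) {c d : V} (hcd : c ≠ d) (x : V → ℝ) (hxc : x c = 0)
    (hxd : x d = 0) {p q : ℝ} (hpq : p + q = 1)
    (hc : ∀ v, v ≠ c → v ≠ d → W s(c, v) = p * x v)
    (hd : ∀ v, v ≠ c → v ≠ d → W s(d, v) = q * x v) {e : Sym2 V} (hec : c ∉ e) (hed : d ∉ e) :
    Ray W e s(c, d) = p * q * (kx (Function.update W e (W e + 1)) c d x * k0 W c d x -
      kx W c d x * k0 (Function.update W e (W e + 1)) c d x) := by
  have hne : ∀ v, e ≠ s(c, v) := by
    rintro v rfl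
    exact hec (Sym2.mem_mk_left c v)
  have hne' : ∀ v, e ≠ s(d, v) := by
    rintro v rfl
    exact hed (Sym2.mem_mk_left d v)
  set Wp := Function.update W e (W e + 1) with hWp
  have cp : ∀ v, v ≠ c → v ≠ d → Wp s(c, v) = p * x v := fun v h1 h2 => by
    rw [hWp, Function.update_of_ne (hne v).symm, hc v h1 h2]
  have dp : ∀ v, v ≠ c → v ≠ d → Wp s(d, v) = q * x v := fun v h1 h2 => by
    rw [hWp, Function.update_of_ne (hne' v).symm, hd v h1 h2]
  have ep : Wp s(c, d) = W s(c, d) := by rw [hWp, Function.update_of_ne (hne d).symm]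
  rw [ray_inc W (hne d), ← hWp, Z_pair W hcd x hxc hxd hpq hc hd,
    Z_pair Wp hcd x hxc hxd hpq cp dp, N_pair W hcd x hxc hxd hpq hc hd,
    N_pair Wp hcd x hxc hxd hpq cp dp, ep]
  ring

/-- **The twin pair identity.** -/
theorem ray_pair (W W' : Sym2 V → ℝ) {c d : V} (hcd : c ≠ d) (x : V → ℝ) (hxc : x c = 0)
    (hxd : x d = 0) {p q : ℝ} (hpq : p + q = 1)
    (hc : ∀ v, v ≠ c → v ≠ d → W s(c, v) = p * x v)
    (hd : ∀ v, v ≠ c → v ≠ d → W s(d, v) = q * x v)
    (hc' : ∀ v, v ≠ c → v ≠ d → W' s(c, v) = x v)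
    (hd' : ∀ v, v ≠ c → v ≠ d → W' s(d, v) = 0) (h0' : W' s(c, d) = 0)
    (hag : ∀ g, c ∉ g → d ∉ g → W g = W' g) {e : Sym2 V} (hec : c ∉ e) (hed : d ∉ e) :
    Ray W e s(c, d) = p * q * ∑ v ∈ univ.filter (fun v => v ≠ c ∧ v ≠ d),
      x v * Ray W' e s(c, v) := by
  have hne : ∀ v, e ≠ s(c, v) := by
    rintro v rfl
    exact hec (Sym2.mem_mk_left c v)
  have hne' : ∀ v, e ≠ s(d, v) := by
    rintro v rfl
    exact hed (Sym2.mem_mk_left d v)
  rw [ray_pair_left W hcd x hxc hxd hpq hc hd hec hed]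
  set Wp := Function.update W e (W e + 1) with hWp
  set Wp' := Function.update W' e (W' e + 1) with hWp'
  have hag' : ∀ g, c ∉ g → d ∉ g → Wp g = Wp' g := by
    intro g h1 h2
    by_cases h3 : g = e
    · subst h3
      rw [hWp, hWp', Function.update_self, Function.update_self, hag g h1 h2]
    · rw [hWp, hWp', Function.update_of_ne h3, Function.update_of_ne h3, hag g h1 h2]
  have cp' : ∀ v, v ≠ c → v ≠ d → Wp' s(c, v) = x v := fun v h1 h2 => by
    rw [hWp', Function.update_of_ne (hne v).symm, hc' v h1 h2]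
  have dp' : ∀ v, v ≠ c → v ≠ d → Wp' s(d, v) = 0 := fun v h1 h2 => by
    rw [hWp', Function.update_of_ne (hne' v).symm, hd' v h1 h2]
  have ep' : Wp' s(c, d) = 0 := by rw [hWp', Function.update_of_ne (hne d).symm, h0']
  have hr : ∀ v ∈ univ.filter (fun v => v ≠ c ∧ v ≠ d), x v * Ray W' e s(c, v) =
      k0 Wp c d x * (x v * kb W c d x v) - k0 W c d x * (x v * kb Wp c d x v) := by
    intro v hv
    rw [mem_filter] at hv
    obtain ⟨_, h1, h2⟩ := hv
    rw [ray_inc W' (hne v), ← hWp', Z_merged W' hcd x hxc hxd hc' hd' h0',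
      Z_merged Wp' hcd x hxc hxd cp' dp' ep', N_merged W' hcd x hxc hxd hc' hd' h0' h1 h2,
      N_merged Wp' hcd x hxc hxd cp' dp' ep' h1 h2, k0_congr x hag, kb_congr x hag v,
      k0_congr x hag', kb_congr x hag' v]
    ring
  have hfull : ∀ (f : V → ℝ), ∑ v ∈ univ.filter (fun v => v ≠ c ∧ v ≠ d), x v * f v =
      ∑ v, x v * f v := by
    intro f
    refine Finset.sum_subset (Finset.filter_subset _ _) fun v _ hv => ?_
    rw [mem_filter] at hv
    have h1 : v = c ∨ v = d := by
      by_contra h2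
      push Not at h2
      exact hv ⟨mem_univ _, h2⟩
    rcases h1 with rfl | rfl
    · rw [hxc, zero_mul]
    · rw [hxd, zero_mul]
  rw [Finset.sum_congr rfl hr, Finset.sum_sub_distrib, ← Finset.mul_sum, ← Finset.mul_sum,
    hfull, hfull, kx_eq W, kx_eq Wp]
  ring

/-! ### Classes of vertices -/

section classes

variable {K : Type*}

/-- One step: both ends of the second edge in one class. -/
lemma class_step (k : V → K) (M : K → K → ℝ) (hM0 : ∀ i j, 0 ≤ M i j) (n : ℕ)
    (ih : ∀ m < n, ∀ (W : Sym2 V → ℝ) (x : V → ℝ), (∀ g, 0 ≤ W g) → (∀ v, 0 ≤ x v) →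
      (∀ u v, u ≠ v → W s(u, v) = x u * x v * M (k u) (k v)) →
      (univ.filter fun v => x v ≠ 0).card = m → ∀ a b c d : V, a ≠ b → a ≠ c → a ≠ d → b ≠ c →
      b ≠ d → c ≠ d → M (k a) (k b) ≠ 0 → M (k c) (k d) ≠ 0 → 0 ≤ Ray W s(a, b) s(c, d))
    (W : Sym2 V → ℝ) (x : V → ℝ) (hW0 : ∀ g, 0 ≤ W g) (hx : ∀ v, 0 ≤ x v)
    (hW : ∀ u v, u ≠ v → W s(u, v) = x u * x v * M (k u) (k v))
    (hn : (univ.filter fun v => x v ≠ 0).card = n) {a b c d : V} (hab : a ≠ b) (hac : a ≠ c)
    (had : a ≠ d) (hbc : b ≠ c) (hbd : b ≠ d) (hcd : c ≠ d) (hk : k c = k d)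
    (hMab : M (k a) (k b) ≠ 0) : 0 ≤ Ray W s(a, b) s(c, d) := by
  have hec : c ∉ s(a, b) := by
    rw [Sym2.mem_iff]
    push Not
    exact ⟨hac.symm, hbc.symm⟩
  have hed : d ∉ s(a, b) := by
    rw [Sym2.mem_iff]
    push Not
    exact ⟨had.symm, hbd.symm⟩
  set s := x c + x d with hs
  by_cases hs0 : s = 0
  · -- both masses vanish
    have h1 := hx c
    have h2 := hx d
    have h3 : x c = 0 := by linarith
    have h4 : x d = 0 := by linarith
    rw [ray_pair_left W hcd (fun _ => 0) rfl rfl (p := 1) (q := 0) (by ring)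
      (fun v hv hv' => by rw [hW c v hv.symm, h3]; ring)
      (fun v hv hv' => by rw [hW d v hv'.symm, h4]; ring) hec hed]
    simp
  have hspos : 0 < s := lt_of_le_of_ne (add_nonneg (hx c) (hx d)) (Ne.symm hs0)
  set X : V → ℝ := fun v => if v = c then 0 else if v = d then 0 else s * x v * M (k c) (k v)
    with hX
  have hXc : X c = 0 := by simp [hX]
  have hXd : X d = 0 := by simp [hX]
  have hXv : ∀ v, v ≠ c → v ≠ d → X v = s * x v * M (k c) (k v) := by
    intro v h1 h2
    simp [hX, h1, h2]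
  have hpq : x c / s + x d / s = 1 := by
    rw [← add_div]
    exact div_self hs0
  have hcc : ∀ v, v ≠ c → v ≠ d → W s(c, v) = x c / s * X v := by
    intro v h1 h2
    rw [hW c v h1.symm, hXv v h1 h2]
    field_simp
  have hdd : ∀ v, v ≠ c → v ≠ d → W s(d, v) = x d / s * X v := by
    intro v h1 h2
    rw [hW d v h2.symm, hXv v h1 h2, ← hk]
    field_simp
  by_cases h0 : x c = 0 ∨ x d = 0
  · rw [ray_pair_left W hcd X hXc hXd hpq hcc hdd hec hed]
    rcases h0 with h0 | h0 <;> simp [h0]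
  push Not at h0
  obtain ⟨hxc, hxd⟩ := h0
  have hxc' : 0 < x c := lt_of_le_of_ne (hx c) (Ne.symm hxc)
  have hxd' : 0 < x d := lt_of_le_of_ne (hx d) (Ne.symm hxd)
  -- the merged graph
  set W' : Sym2 V → ℝ := fun g => if d ∈ g then 0 else if c ∈ g then s / x c * W g else W g
    with hW'
  have hW'0 : ∀ g, 0 ≤ W' g := by
    intro g
    rw [hW']
    simp only
    have := hW0 g
    split_ifs <;> positivity
  have w1 : ∀ u v, u ≠ d → v ≠ d → (u = c ∨ v = c) → W' s(u, v) = s / x c * W s(u, v) := by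
    intro u v h1 h2 h3
    rw [hW']
    simp only
    rw [if_neg, if_pos]
    · rw [Sym2.mem_iff]
      rcases h3 with h3 | h3
      · exact Or.inl h3.symm
      · exact Or.inr h3.symm
    · rw [Sym2.mem_iff]
      push Not
      exact ⟨h1.symm, h2.symm⟩
  have w2 : ∀ u v, (u = d ∨ v = d) → W' s(u, v) = 0 := by
    intro u v h3
    rw [hW']
    simp only
    rw [if_pos]
    rw [Sym2.mem_iff]
    rcases h3 with h3 | h3
    · exact Or.inl h3.symm
    · exact Or.inr h3.symm
  have w3 : ∀ g, c ∉ g → d ∉ g → W g = W' g := by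
    intro g h1 h2
    rw [hW']
    simp only
    rw [if_neg h2, if_neg h1]
  set x' : V → ℝ := fun v => if v = d then 0 else if v = c then s else x v with hx'
  have hx'0 : ∀ v, 0 ≤ x' v := by
    intro v
    rw [hx']
    simp only
    have := hx v
    split_ifs
    · exact le_refl 0
    · exact hspos.le
    · exact this
  have hx'd : x' d = 0 := by simp [hx']
  have hx'c : x' c = s := by simp [hx', hcd]
  have hx'v : ∀ v, v ≠ c → v ≠ d → x' v = x v := by
    intro v h1 h2
    simp [hx', h1, h2]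
  have hW'e : ∀ u v, u ≠ v → W' s(u, v) = x' u * x' v * M (k u) (k v) := by
    intro u v huv
    by_cases hud : u = d
    · rw [w2 u v (Or.inl hud), hud, hx'd]
      ring
    by_cases hvd : v = d
    · rw [w2 u v (Or.inr hvd), hvd, hx'd]
      ring
    by_cases huc : u = c
    · have hvc : v ≠ c := fun h => huv (huc.trans h.symm)
      rw [w1 u v hud hvd (Or.inl huc), hW u v huv, huc, hx'c, hx'v v hvc hvd]
      field_simp
    by_cases hvc : v = c
    · rw [w1 u v hud hvd (Or.inr hvc), hW u v huv, hvc, hx'c, hx'v u huc hud]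
      field_simp
    rw [← w3 s(u, v) (by rw [Sym2.mem_iff]; push Not; exact ⟨Ne.symm huc, Ne.symm hvc⟩)
      (by rw [Sym2.mem_iff]; push Not; exact ⟨Ne.symm hud, Ne.symm hvd⟩), hW u v huv,
      hx'v u huc hud, hx'v v hvc hvd]
  have hcard : (univ.filter fun v => x' v ≠ 0).card < n := by
    rw [← hn]
    refine Finset.card_lt_card ?_
    rw [Finset.ssubset_iff_of_subset]
    · refine ⟨d, ?_, ?_⟩
      · rw [mem_filter]
        exact ⟨mem_univ _, hxd⟩
      · rw [mem_filter]
        push Not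
        exact fun _ => hx'd
    · intro v hv
      rw [mem_filter] at hv ⊢
      refine ⟨mem_univ _, ?_⟩
      by_cases hvd : v = d
      · rw [hvd]
        exact hxd
      by_cases hvc : v = c
      · rw [hvc]
        exact hxc
      rw [← hx'v v hvc hvd]
      exact hv.2
  rw [ray_pair W W' hcd X hXc hXd hpq hcc hdd
    (fun v h1 h2 => by
      rw [w1 c v hcd h2 (Or.inl rfl), hW c v h1.symm, hXv v h1 h2]
      field_simp)
    (fun v _ _ => w2 d v (Or.inl rfl)) (w2 c d (Or.inr rfl)) w3 hec hed]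
  refine mul_nonneg (mul_nonneg (by positivity) (by positivity)) (Finset.sum_nonneg fun v hv => ?_)
  rw [mem_filter] at hv
  obtain ⟨_, hvc, hvd⟩ := hv
  rw [hXv v hvc hvd]
  by_cases hMv : M (k c) (k v) = 0
  · rw [hMv, mul_zero, zero_mul]
  refine mul_nonneg (mul_nonneg (mul_nonneg hspos.le (hx v)) (hM0 _ _)) ?_
  by_cases hva : v = a
  · rw [hva, Sym2.eq_swap (a := c)]
    exact ray_adj W' hW'0 hab hac hbc
  by_cases hvb : v = b
  · rw [hvb, Sym2.eq_swap (a := c), Sym2.eq_swap (a := a)]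
    exact ray_adj W' hW'0 hab.symm hbc hac
  exact ih _ hcard W' x' hW'0 hx'0 hW'e rfl a b c v hab hac (Ne.symm hva) hbc (Ne.symm hvb)
    (Ne.symm hvc) hMab hMv

/-- **All pairs of disjoint edges**, if no two of them join four different classes. -/
theorem ray_class (k : V → K) (M : K → K → ℝ) (hM0 : ∀ i j, 0 ≤ M i j)
    (hM : ∀ i j i' j', M i j ≠ 0 → M i' j' ≠ 0 →
      i = j ∨ i' = j' ∨ i = i' ∨ i = j' ∨ j = i' ∨ j = j') (n : ℕ) :
    ∀ (W : Sym2 V → ℝ) (x : V → ℝ), (∀ g, 0 ≤ W g) → (∀ v, 0 ≤ x v) →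
      (∀ u v, u ≠ v → W s(u, v) = x u * x v * M (k u) (k v)) →
      (univ.filter fun v => x v ≠ 0).card = n → ∀ a b c d : V, a ≠ b → a ≠ c → a ≠ d → b ≠ c →
      b ≠ d → c ≠ d → M (k a) (k b) ≠ 0 → M (k c) (k d) ≠ 0 → 0 ≤ Ray W s(a, b) s(c, d) := by
  induction n using Nat.strong_induction_on with
  | _ n ih =>
    intro W x hW0 hx hW hn a b c d hab hac had hbc hbd hcd hMab hMcd
    have key : ∀ a b c d : V, a ≠ b → a ≠ c → a ≠ d → b ≠ c → b ≠ d → c ≠ d → k a = k c →
        0 ≤ Ray W s(a, b) s(c, d) := by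
      intro a b c d hab hac had hbc hbd hcd hk
      refine ray_twin W hW0 hab hac had hbc hbd hcd (hx a) (hx c)
        (fun v => x v * M (k a) (k v)) (fun v => mul_nonneg (hx v) (hM0 _ _)) ?_ ?_
      · intro v h1 _ _ _
        rw [hW a v (Ne.symm h1)]
        ring
      · intro v _ _ h3 _
        rw [hW c v (Ne.symm h3), ← hk]
        ring
    rcases hM _ _ _ _ hMab hMcd with h | h | h | h | h | h
    · rw [Pool.Agent.PW.Ray_comm]
      exact class_step k M hM0 n ih W x hW0 hx hW hn hcd hac.symm hbc.symm had.symm hbd.symm hab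
        h hMcd
    · exact class_step k M hM0 n ih W x hW0 hx hW hn hab hac had hbc hbd hcd h hMab
    · exact key a b c d hab hac had hbc hbd hcd h
    · rw [Sym2.eq_swap (a := c)]
      exact key a b d c hab had hac hbd hbc hcd.symm h
    · rw [Sym2.eq_swap (a := a)]
      exact key b a c d hab.symm hbc hbd hac had hcd h
    · rw [Sym2.eq_swap (a := a), Sym2.eq_swap (a := c)]
      exact key b a d c hab.symm hbd hbc had hac hcd.symm h

end classes

end Pool.Agent.Lib.MP_d90615_co
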